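import Pool.Agent.W920.NL.LawAdv

/-!
# `coNP ⊆ NP/poly` and nondeterministic prediction with advice

`InNP`, `NPHard` are those of `Pool.Agent.NPC.Defs`, polynomial time is Mathlib's
`Turing.TM2ComputableInPolyTime`; `InNPPoly`, `AdvOutputs`, `AdvPredictable` and
`AdvFullyPredictable` are those of `Pool.Agent.W920.NL.DefsAdv`, `Beats` is that of
`Pool.Agent.W901.AT.DefsP`.

A set `A` is nondeterministically `(δ, ε)`-predictable with advice if there is a total
nondeterministic polynomial-time algorithm with advice of polynomial length (with its advice it has
at least one output for every input, possibly many different ones) which, given a nonempty list of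
`m` questions of length at most `m ^ ε` about membership in `A` and `O(log n)` bits of information
about this list from an arbitrary source, has only outputs which are predictions for some `s > 0` of
the questions such that the numbers of right and of wrong predictions differ by at least
`m ^ δ * √ s`.  It is nondeterministically fully `δ`-predictable with advice if this holds for all
lists of questions, of any length, with predictions for all questions.

The theorem: for all `ε > 0` and `0 < δ ≤ 1 / 2`,

`coNP ⊆ NP/poly` iff some `NP`-hard set is nondeterministically `(δ, ε)`-predictable with advice iff
every set in `NP` is nondeterministically fully `δ`-predictable with advice.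

(For `δ ≤ 0` every set is fully `δ`-predictable, even deterministically without advice, so the
threshold is sharp.)

Proof.  Let some `NP`-hard set be nondeterministically predictable with advice, and let `L` be in
`NP`. Certificates for `x ∉ L` are the sequences of tables of outputs of
`Pool.Agent.W920.NL.core` (see `MP_9cec2c_lc.NondeterministicLaw`): all inputs on which the
predictor is evaluated, in all levels of the search for a witness of `x ∈ L`, have length at most
`N`, a polynomial in `|x|`; the advice for `x` is the list of the advice strings of the predictor for
all lengths up to `N`.
-/

set_option autoImplicit false

namespace Pool.Agent.Results.MP_a77cad_lc.AdvicePrediction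

open Pool.Agent.NPC Pool.Agent.W920.NL

/-- **The law of nondeterministic prediction with advice for `NP`.** -/
theorem result (δ ε : ℝ) (h1 : 0 < δ) (h2 : δ ≤ 1 / 2) (h3 : 0 < ε) : List.TFAE
    [∀ L : Set (List Bool), InNP L → InNPPoly Lᶜ,
      ∃ A : Set (List Bool), NPHard A ∧ AdvPredictable δ ε A,
      ∀ A : Set (List Bool), InNP A → AdvFullyPredictable δ A] :=
  Pool.Agent.W920.NL.adv_law h1 h2 h3

end Pool.Agent.Results.MP_a77cad_lc.AdvicePrediction
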