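import Pool.Agent.W900.CH.NELev
import Pool.Agent.H943R6.MC.Final

/-!
# How many strings of a random oracle have to be changed to put `coNP` into `NP/poly`?

The number of changes is measured by a function `g`: the oracle `A` is obtained from `O` by changing,
for all large `n`, at most `g n` of the strings of length at most `n`. If `g n ≤ 2 ^ (n ^ ε)` for
every `ε > 0` and infinitely many `n`, then `coNP^A ⊄ NP^A / poly` for almost every oracle `O` and
all oracles `A` that are obtained from `O` by at most `g` changes, however these changes depend on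
`O`.
Otherwise every oracle `O` can be changed, by at most `g` changes, into an oracle `A` with
`coNP^A ⊆ NP^A`, and one can have either `PSPACE^A = P^A`, or `NEXP^A = BPP^A`, or
`EXP^A = ZPP^A ≠ P^A`.

So the threshold is exactly at the functions which are not subexponential.
-/

set_option autoImplicit false

namespace Pool.Agent.Results.MP_a77cad_lc.ChangedStrings

open Pool.Agent.NPC Pool.Agent.H620R2.Gauge Pool.Agent.W900.CH
open Pool.Agent.H628R3.RO (randomOracle)
open MeasureTheory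

theorem result (g : ℕ → ℝ) :
    ((∀ ε : ℝ, 0 < ε → ∃ᶠ n : ℕ in Filter.atTop, g n ≤ 2 ^ (n : ℝ) ^ ε) →
      ∀ᵐ O ∂randomOracle, ∀ A : Oracle, Close g O A →
        ∃ L, IsNP A Lᶜ ∧ ¬ WithAdvice (IsNP A) L) ∧
    ((¬ ∀ ε : ℝ, 0 < ε → ∃ᶠ n : ℕ in Filter.atTop, g n ≤ 2 ^ (n : ℝ) ^ ε) →
      ∀ O : Oracle,
        (∃ A : Oracle, Close g O A ∧ (∀ L, IsNP A Lᶜ → IsNP A L) ∧
          ∀ L, IsPSPACE A L → IsP A L) ∧
        (∃ A : Oracle, Close g O A ∧ (∀ L, IsNP A Lᶜ → WithAdvice (IsNP A) L) ∧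
          ∀ L, IsNEXP A L → IsBPP A L) ∧
        ∃ A : Oracle, Close g O A ∧ (∀ L, IsNP A Lᶜ → IsNP A L) ∧
          (∀ L, IsEXP A L → IsZPP A L) ∧ ∃ L, IsZPP A L ∧ ¬ IsP A L) := by
  refine ⟨fun hg => ?_, fun hg O => ⟨?_, ?_, ?_⟩⟩
  · filter_upwards [ae_coNP hg] with O hO A hA
    obtain ⟨L, h1, h2⟩ := hO A hA
    exact ⟨Lᶜ, by rwa [compl_compl], h2⟩
  · obtain ⟨A, h1, h2⟩ := exists_close_PSPACE hg O
    have h3 : ∀ L, IsPSPACE A L → IsP A L := fun L hL => isP_of_reduces (h2 L hL)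
    refine ⟨A, h1, fun L hL => ?_, h3⟩
    have h4 := (h3 _ hL.isPSPACE).compl
    rw [compl_compl] at h4
    exact h4.isNP
  · obtain ⟨A, h1, h2⟩ := exists_close_NEXP hg O
    refine ⟨A, h1, fun L hL => ?_, h2⟩
    have h4 := (h2 _ hL.isNEXP).withAdvice.compl_np
    rwa [compl_compl] at h4
  · obtain ⟨A, h1, h2, h3⟩ := exists_close_ZPP hg O
    refine ⟨A, h1, fun L hL => ?_, fun L hL => h2 L (Or.inl hL), h3⟩
    have h4 := Pool.Agent.H943R6.MC.isZPP_compl (h2 _ (Or.inr hL.isPSPACE))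
    rw [compl_compl] at h4
    exact h4.isNP

end Pool.Agent.Results.MP_a77cad_lc.ChangedStrings
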