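import Pool.Agent.W895.BC.OneSided

/-!
# Co-nondeterminism against nondeterminism, Merlin-Arthur games and `SBP` in linear time

The model is the one of time-space lower bounds: branching programs on `n` Boolean variables
(this is a non-uniform model), `2 ^ s` nodes stand for space `s`, the number of queries for the
time.

We give functions with co-nondeterministic computations which are as simple as possible: a few
programs (at most `β n`, where `β` tends to infinity as slowly as one likes), each of which reads
the input once, in a fixed order, and has `β n * n` nodes, and the value is `true` if and only if
all of them accept. These functions are not given, in time `k n` and space `n / β n`, by the number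
of accepting programs (certificates, coin strings, ...) and a threshold with a gap: at least
`(1 + 1 / q) b` of the programs accept if the value is `true`, and at most `b` of them if it is
`false`; here `b` may be as small as a `2 ^ (- n / β n)` part of the number of the programs.
Nondeterministic programs (`b < 1`; `n / β n` bits are guessed in the beginning), randomised
programs with two-sided error `1 / 2 - ε`, Merlin-Arthur games with an error that is exponentially
small in the length of the message of Merlin, and the class `SBP` (Böhler, Glaßer, Meister) are of
this form. So the non-uniform linear time analogues of `coNP ⊈ NP/poly` and even of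
`coNP ⊈ MA/poly ⊆ SBP/poly` are true if space is sublinear.

The function: all of `2 L + 2` random quadratic forms in blocks are zero (`L` a large constant, or
growing slowly).  The forms and the treatment of programs of length `k n` by rectangles (Ajtai;
Beame, Saks, Sun, Vee) are those of `Pool.Agent.H554R2` (results `NondetNotRandomised` and
`LinearTimeBothSides`, proved by many seats): a large rectangle depends on at most `L` of the
forms. New is the one-sided comparison of the inputs with all forms zero and those with exactly
one form different from zero, weighted by powers of the number of accepting programs.
-/

set_option autoImplicit false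

namespace Pool.Agent.Results.MP_a77cad_lc.LinearTimeConondeterminism

open Pool.Agent.H554R2.Sem Pool.Agent.H554R2.Coin

/-- The branching program `P` accepts the input `x` after at most `τ` queries. -/
def Acc {n : ℕ} (P : BP (Fin n) Bool) (τ : ℕ) (x : Pt n) : Prop :=
  ∃ l, P.Comp x l true ∧ l.length ≤ τ

/-- The function `f` has a one-pass co-nondeterministic computation: there are `J ≤ D` programs
with at most `D * n` nodes, each of which reads on all inputs the same variables in the same order,
each variable at most once, and `f x` is `true` if and only if all of them accept `x`. -/
def OnePassCoNP (n D : ℕ) (f : Pt n → Bool) : Prop :=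
  ∃ (J : ℕ) (V : Fin J → BP (Fin n) Bool), J ≤ D ∧
    (∀ j, Fintype.card (V j).State ≤ D * n ∧
      ∃ l : List (Fin n), l.Nodup ∧ ∀ x : Pt n, ∃ b, (V j).Comp x l b) ∧
    ∀ x, f x = true ↔ ∀ j, ∃ l, (V j).Comp x l true

/-- The function `f` is not computed in time `k * n` and space `n / D` by a threshold with a gap:
for all `I` programs `P ω` with at most `2 ^ (n / D)` nodes and every threshold `b > 0` with
`I ≤ b * 2 ^ (n / D)`, it is not true that on every input `x` at least `(1 + 1 / q) * b` of the
programs accept within `τ ≤ k * n` queries if `f x = true`, and at most `b` of them if
`f x = false`. -/
def NoGapThreshold (n k q D : ℕ) (f : Pt n → Bool) : Prop :=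
  ∀ τ ≤ k * n, ∀ (I : ℕ) (b : ℝ) (P : Fin I → BP (Fin n) Bool), 0 < b →
    (I : ℝ) ≤ b * 2 ^ (n / D) → (∀ ω, Fintype.card (P ω).State ≤ 2 ^ (n / D)) →
    ∃ x, (f x = true ∧ q * Nat.card {ω // Acc (P ω) τ x} < (q + 1) * b) ∨
      (f x = false ∧ b < Nat.card {ω // Acc (P ω) τ x})

/-- Let `β n` tend to infinity, as slowly as one likes.  There is a family of Boolean functions
`F n` such that for all constants `k`, `q` and all large `n` the function `F n` has a one-pass
co-nondeterministic computation with at most `β n` programs with `β n * n` nodes, but is not
computed by a threshold with the gap `1 + 1 / q` in time `k n` and space `n / β n`. -/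
theorem result (β : ℕ → ℕ) (hβ : Filter.Tendsto β Filter.atTop Filter.atTop) :
    ∃ F : ∀ n, Pt n → Bool, ∀ k q : ℕ, ∃ N, ∀ n ≥ N,
      OnePassCoNP n (β n) (F n) ∧ NoGapThreshold n k q (β n) (F n) :=
  Pool.Agent.W895.BC.one_family β hβ

end Pool.Agent.Results.MP_a77cad_lc.LinearTimeConondeterminism
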