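import Pool.Agent.W107.PagedPar
import Pool.Agent.W107.Asym

/-!
# Distributed nondeterministic verification of unsatisfiability

Any number of processors verify together that a 3-CNF formula with `m` clauses is unsatisfiable.
They share a common guess and exchange messages, `P` bits altogether, and every processor reads at
most `d` clauses. If `P + d` is small compared with `m` then superlinearly many readings are
necessary. In particular nondeterministic non-uniform machines with any number of memory pages,
on which they work one after the other, cannot verify unsatisfiability in linear time.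
-/

set_option autoImplicit false

namespace Pool.Agent.Results.MP_a77cad_lc.ZDistributedVerification

open Pool.Agent.W107 Pool.Agent.H774R2.QSAT

/-- There is `c > 0` such that the following holds.

(1) Let `V` be a distributed nondeterministic verification scheme for 3-CNF formulas with `m`
clauses in `m` variables, with any number of processors and with at most `2 ^ P` possible total
messages. Assume that every formula with an accepting computation is unsatisfiable, and that every
unsatisfiable formula has an accepting computation in which every processor reads at most `d`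
clauses and the total number of readings is at most `T`. If `P + d + 1 ≤ c * m` then
`c * m * log (m / (P + d + 1)) ≤ T`.

(2) Let `M` be a nondeterministic, non-uniform machine with random access to the `m` clauses,
with `2 ^ S` states of the core, where `S ≥ 1` and `S ≥ log₂ m`, and with any number of memory
pages with at most `2 ^ G` possible contents each. If `M` accepts exactly the unsatisfiable
formulas by computations with `T` steps and at most `F` changes of the page, and if
`(F + 1) * S + G ≤ c * m`, then `c * m * log (m / ((F + 1) * S + G)) ≤ T`. -/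
theorem result : ∃ c : ℝ, 0 < c ∧
    (∀ (m P d T : ℕ) (M β : Type) [Fintype M] [Fintype β] (V : Scheme m (Clause m) M β),
      Fintype.card M ≤ 2 ^ P → (P : ℝ) + d + 1 ≤ c * m →
      (∀ φ, V.Accepts φ → ¬ Sat φ) → (∀ φ, ¬ Sat φ → V.AcceptsIn d T φ) →
      c * m * Real.log (m / ((P : ℝ) + d + 1)) ≤ T) ∧
    (∀ (m S G F T : ℕ) (Q P C : Type) [Fintype Q] [Fintype P] [Fintype C]
      (M : PagedMachine m (Clause m) Q P C),
      Fintype.card Q ≤ 2 ^ S → Fintype.card C ≤ 2 ^ G → 1 ≤ S → Nat.log 2 m ≤ S →
      ((F : ℝ) + 1) * S + G ≤ c * m → (∀ φ, M.Accepts T F φ ↔ ¬ Sat φ) →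
      c * m * Real.log (m / (((F : ℝ) + 1) * S + G)) ≤ T) := by
  obtain ⟨c₁, hc₁, h₁⟩ := asym_of 24 100 (by norm_num)
  obtain ⟨c₂, hc₂, h₂⟩ := asym_of 49 207 (by norm_num)
  have key : ∀ (c c' : ℝ) (m T : ℕ) (R : ℝ), 0 < c → c ≤ c' → c' * m * Real.log (m / R) ≤ T →
      c * m * Real.log (m / R) ≤ T := by
    intro c c' m T R hc hcc h
    rcases le_or_gt 0 (Real.log (m / R)) with hl | hl
    · refine le_trans (mul_le_mul_of_nonneg_right ?_ hl) h
      exact mul_le_mul_of_nonneg_right hcc (Nat.cast_nonneg m)
    · refine le_trans ?_ (Nat.cast_nonneg T)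
      exact mul_nonpos_of_nonneg_of_nonpos (by positivity) hl.le
  refine ⟨min c₁ c₂, lt_min hc₁ hc₂, ?_, ?_⟩
  · intro m P d T M β _ _ V hM hR hs hcov
    have hR' : (P : ℝ) + d + 1 ≤ c₁ * m :=
      hR.trans (mul_le_mul_of_nonneg_right (min_le_left _ _) (Nat.cast_nonneg m))
    refine key _ c₁ m T _ (lt_min hc₁ hc₂) (min_le_left _ _) ?_
    have hR1 : (1 : ℝ) ≤ (P : ℝ) + d + 1 := by
      have : (0 : ℝ) ≤ P := Nat.cast_nonneg P
      have : (0 : ℝ) ≤ d := Nat.cast_nonneg d
      linarith
    refine h₁ m T _ hR1 hR' fun K hK hm => ?_
    by_contra hcon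
    push Not at hcon
    refine contra V hK hM ?_ hcon hcov hs
    have : (((P + d + 1) * 2 ^ (24 * K + 100) : ℕ) : ℝ) ≤ m := by
      push_cast
      exact hm
    exact_mod_cast this
  · intro m S G F T Q P C _ _ _ M hQ hC hS1 hS hR hdec
    have hR' : ((F : ℝ) + 1) * S + G ≤ c₂ * m :=
      hR.trans (mul_le_mul_of_nonneg_right (min_le_right _ _) (Nat.cast_nonneg m))
    refine key _ c₂ m T _ (lt_min hc₁ hc₂) (min_le_right _ _) ?_
    have hR1 : (1 : ℝ) ≤ ((F : ℝ) + 1) * S + G := by
      have : 1 ≤ (F + 1) * S + G := le_trans (Nat.mul_pos (by omega) hS1) (Nat.le_add_right _ _)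
      exact_mod_cast this
    refine h₂ m T _ hR1 hR' fun K hK hm => ?_
    by_contra hcon
    push Not at hcon
    refine paged_contra M hK hQ hC hS hS1 ?_ hcon hdec
    have : ((((F + 1) * S + G) * 2 ^ (49 * K + 207) : ℕ) : ℝ) ≤ m := by
      push_cast
      exact hm
    exact_mod_cast this

end Pool.Agent.Results.MP_a77cad_lc.ZDistributedVerification
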